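import Mathlib
import Pool.Agent.R61.TotBip2

/-!
# Two matchings which separate the vertices of maximum degree outside a given set
-/

set_option autoImplicit false

namespace Pool.Agent.H439.TB

open Finset Pool.Agent.TH559.LE Pool.Agent.R61.TotExt

open Classical in
/-- The theorem of Mendelsohn and Dulmage: if Hall's condition holds on both sides for the sets of
vertices with the property `P`, then some matching covers all vertices with this property. -/
theorem md {V : Type} [Fintype V] (K : SimpleGraph V) (X : V → Prop)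
    (hX : ∀ u v, K.Adj u v → (X u ↔ ¬ X v)) (P : V → Prop)
    (hP : ∀ S : Finset V, (∀ v ∈ S, P v) → ((∀ v ∈ S, X v) ∨ (∀ v ∈ S, ¬ X v)) →
      S.card ≤ (univ.filter (fun w => ∃ v ∈ S, K.Adj v w)).card) :
    ∃ M : SimpleGraph V, M ≤ K ∧ (∀ u v w, M.Adj u v → M.Adj u w → v = w) ∧
      ∀ v, P v → ∃ w, M.Adj v w := by
  set t : V → Finset V := fun v => (univ.filter (fun w => K.Adj v w)) ∪
    (if P v then ∅ else {v}) with ht
  have ht1 : ∀ v w, w ∈ t v ↔ K.Adj v w ∨ (¬ P v ∧ w = v) := by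
    intro v w
    simp only [ht, mem_union, mem_filter, mem_univ, true_and]
    by_cases h : P v
    · simp [h]
    · simp [h]
  have hall : ∀ S : Finset V, S.card ≤ (S.biUnion t).card := by
    intro S
    set S1 : Finset V := S.filter (fun v => P v ∧ (∀ w ∈ S, ¬ K.Adj v w) ∧ X v) with hS1
    set S2 : Finset V := S.filter (fun v => P v ∧ (∀ w ∈ S, ¬ K.Adj v w) ∧ ¬ X v) with hS2
    set N1 : Finset V := univ.filter (fun w => ∃ v ∈ S1, K.Adj v w) with hN1
    set N2 : Finset V := univ.filter (fun w => ∃ v ∈ S2, K.Adj v w) with hN2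
    have h1 : S1.card ≤ N1.card := hP S1 (fun v hv => (mem_filter.1 hv).2.1)
      (Or.inl fun v hv => (mem_filter.1 hv).2.2.2)
    have h2 : S2.card ≤ N2.card := hP S2 (fun v hv => (mem_filter.1 hv).2.1)
      (Or.inr fun v hv => (mem_filter.1 hv).2.2.2)
    have hd1 : Disjoint N1 N2 := by
      rw [disjoint_left]
      intro w hw1 hw2
      obtain ⟨_, a, ha, haw⟩ := mem_filter.1 hw1
      obtain ⟨_, b, hb, hbw⟩ := mem_filter.1 hw2
      have e1 := (hX a w haw).1 (mem_filter.1 ha).2.2.2
      have e2 : ¬ X b := (mem_filter.1 hb).2.2.2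
      exact e2 ((hX b w hbw).2 e1)
    have hd2 : Disjoint (S \ (S1 ∪ S2)) (N1 ∪ N2) := by
      rw [disjoint_left]
      intro w hw1 hw2
      have hwS := (mem_sdiff.1 hw1).1
      rcases mem_union.1 hw2 with hw | hw
      · obtain ⟨_, a, ha, haw⟩ := mem_filter.1 hw
        exact (mem_filter.1 ha).2.2.1 w hwS haw
      · obtain ⟨_, a, ha, haw⟩ := mem_filter.1 hw
        exact (mem_filter.1 ha).2.2.1 w hwS haw
    have hsub : (S \ (S1 ∪ S2)) ∪ (N1 ∪ N2) ⊆ S.biUnion t := by
      intro v hv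
      rw [mem_biUnion]
      rcases mem_union.1 hv with hv | hv
      · obtain ⟨hvS, hvn⟩ := mem_sdiff.1 hv
        by_cases hPv : P v
        · have h3 : ¬ ∀ w ∈ S, ¬ K.Adj v w := by
            intro h
            apply hvn
            rw [mem_union]
            by_cases hXv : X v
            · exact Or.inl (mem_filter.2 ⟨hvS, hPv, h, hXv⟩)
            · exact Or.inr (mem_filter.2 ⟨hvS, hPv, h, hXv⟩)
          push Not at h3
          obtain ⟨w, hw, hvw⟩ := h3
          exact ⟨w, hw, (ht1 w v).2 (Or.inl hvw.symm)⟩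
        · exact ⟨v, hvS, (ht1 v v).2 (Or.inr ⟨hPv, rfl⟩)⟩
      · rcases mem_union.1 hv with hv | hv
        · obtain ⟨_, a, ha, hav⟩ := mem_filter.1 hv
          exact ⟨a, (mem_filter.1 ha).1, (ht1 a v).2 (Or.inl hav)⟩
        · obtain ⟨_, a, ha, hav⟩ := mem_filter.1 hv
          exact ⟨a, (mem_filter.1 ha).1, (ht1 a v).2 (Or.inl hav)⟩
    have h3 := card_le_card hsub
    rw [card_union_of_disjoint hd2, card_union_of_disjoint hd1] at h3
    have h4 : S.card ≤ (S \ (S1 ∪ S2)).card + (S1 ∪ S2).card := by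
      have := Finset.card_le_card_sdiff_add_card (s := S) (t := S1 ∪ S2)
      exact this
    have h5 := card_union_le S1 S2
    omega
  obtain ⟨σ, hσ1, hσ2⟩ := (Finset.all_card_le_biUnion_card_iff_exists_injective t).1 hall
  have hσ3 : Function.Surjective σ := Finite.injective_iff_surjective.1 hσ1
  have hσK : ∀ v, σ v ≠ v → K.Adj v (σ v) := by
    intro v hv
    rcases (ht1 v (σ v)).1 (hσ2 v) with h | h
    · exact h
    · exact absurd h.2 hv
  have hσP : ∀ v, P v → σ v ≠ v := by
    intro v hv heq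
    rcases (ht1 v (σ v)).1 (hσ2 v) with h | h
    · rw [heq] at h
      exact K.loopless.irrefl v h
    · exact h.1 hv
  let M : SimpleGraph V :=
    { Adj := fun a b => (X a ∧ σ a = b ∧ a ≠ b) ∨ (X b ∧ σ b = a ∧ a ≠ b)
      symm := ⟨fun a b h => by
        rcases h with h | h
        · exact Or.inr ⟨h.1, h.2.1, h.2.2.symm⟩
        · exact Or.inl ⟨h.1, h.2.1, h.2.2.symm⟩⟩
      loopless := ⟨fun a h => by
        rcases h with h | h
        · exact h.2.2 rfl
        · exact h.2.2 rfl⟩ }
  have hM : ∀ a b, M.Adj a b ↔ (X a ∧ σ a = b ∧ a ≠ b) ∨ (X b ∧ σ b = a ∧ a ≠ b) :=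
    fun _ _ => Iff.rfl
  have hMK : ∀ a b, M.Adj a b → K.Adj a b := by
    intro a b h
    rcases (hM a b).1 h with ⟨_, h2, h3⟩ | ⟨_, h2, h3⟩
    · have := hσK a (by rw [h2]; exact h3.symm)
      rwa [h2] at this
    · have := hσK b (by rw [h2]; exact h3)
      rw [h2] at this
      exact this.symm
  refine ⟨M, fun a b h => hMK a b h, ?_, ?_⟩
  · intro u v w huv huw
    have k1 := hX u v (hMK u v huv)
    have k2 := hX u w (hMK u w huw)
    rcases (hM u v).1 huv with h | h
    · rcases (hM u w).1 huw with h' | h'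
      · exact h.2.1.symm.trans h'.2.1
      · exact absurd h'.1 (k2.1 h.1)
    · rcases (hM u w).1 huw with h' | h'
      · exact absurd h.1 (k1.1 h'.1)
      · exact hσ1 (h.2.1.trans h'.2.1.symm)
  · intro v hv
    have h3 := hσP v hv
    by_cases hXv : X v
    · exact ⟨σ v, (hM v (σ v)).2 (Or.inl ⟨hXv, rfl, h3.symm⟩)⟩
    · obtain ⟨w, hw⟩ := hσ3 v
      have h4 : v ≠ w := by
        rintro rfl
        exact h3 hw
      have h5 := hσK w (by rw [hw]; exact h4)
      rw [hw] at h5
      exact ⟨w, (hM v w).2 (Or.inr ⟨(hX w v h5).2 hXv, hw, h4⟩)⟩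

end Pool.Agent.H439.TB
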