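import Mathlib
import Pool.Agent.H439.TB.Md

/-!
# Two matchings which separate the vertices of maximum degree outside a given set
-/

set_option autoImplicit false

namespace Pool.Agent.H439.TB

open Finset Pool.Agent.TH559.LE Pool.Agent.R61.TotExt

open Classical in
/-- Hall's condition by counting edges. -/
theorem hall_deg {V : Type} [Fintype V] (K : SimpleGraph V) (Δ : ℕ) (hΔ0 : 0 < Δ)
    (S : Finset V) (h1 : ∀ v ∈ S, Δ ≤ (univ.filter (fun w => K.Adj v w)).card)
    (h2 : ∀ w, (univ.filter (fun v => K.Adj w v)).card ≤ Δ) :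
    S.card ≤ (univ.filter (fun w => ∃ v ∈ S, K.Adj v w)).card := by
  set N := univ.filter (fun w => ∃ v ∈ S, K.Adj v w) with hN
  have e1 : Δ * S.card ≤ ∑ v ∈ S, (N.filter (fun w => K.Adj v w)).card := by
    rw [mul_comm, ← smul_eq_mul, ← sum_const]
    refine sum_le_sum fun v hv => (h1 v hv).trans (card_le_card ?_)
    intro w hw
    rw [mem_filter] at hw ⊢
    exact ⟨mem_filter.2 ⟨mem_univ _, v, hv, hw.2⟩, hw.2⟩
  have e2 : ∑ v ∈ S, (N.filter (fun w => K.Adj v w)).card =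
      ∑ w ∈ N, (S.filter (fun v => K.Adj v w)).card := by
    simp_rw [card_filter]
    exact sum_comm
  have e3 : ∑ w ∈ N, (S.filter (fun v => K.Adj v w)).card ≤ Δ * N.card := by
    rw [mul_comm, ← smul_eq_mul, ← sum_const]
    refine sum_le_sum fun w _ => (card_le_card ?_).trans (h2 w)
    intro v hv
    rw [mem_filter] at hv ⊢
    exact ⟨mem_univ _, hv.2.symm⟩
  exact Nat.le_of_mul_le_mul_left (by omega) hΔ0

open Classical in
/-- For every set `D` of vertices of a bipartite graph with maximum degree `Δ` there are two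
matchings `FA`, `FB` such that the ends of `FA` in `X` and the ends of `FB` outside `X` have degree
`Δ` and are not in `D`, no edge joins an end of `FA` in `X` to an end of `FB` outside `X`, and the
two matchings together cover all vertices of degree `Δ` outside `D`. -/
theorem two {V : Type} [Fintype V] (G : SimpleGraph V) (X : V → Prop)
    (hX : ∀ u v, G.Adj u v → (X u ↔ ¬ X v)) (Δ : ℕ) (hΔ0 : 0 < Δ) (hΔ : ∀ v, dg G v ≤ Δ)
    (D : V → Prop) :
    ∃ FA FB : SimpleGraph V, FA ≤ G ∧ FB ≤ G ∧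
      (∀ u v w, FA.Adj u v → FA.Adj u w → v = w) ∧ (∀ u v w, FB.Adj u v → FB.Adj u w → v = w) ∧
      (∀ x w, X x → FA.Adj x w → ¬ D x ∧ dg G x = Δ) ∧
      (∀ y w, ¬ X y → FB.Adj y w → ¬ D y ∧ dg G y = Δ) ∧
      (∀ x y, X x → G.Adj x y → (∀ w, ¬ FA.Adj x w) ∨ (∀ w, ¬ FB.Adj y w)) ∧
      (∀ v, ¬ D v → dg G v = Δ → (∃ w, FA.Adj v w) ∨ (∃ w, FB.Adj v w)) := by
  set Np : Finset V → Finset V := fun Y =>
    univ.filter (fun w => (¬ D w ∧ dg G w = Δ) ∧ ∃ x ∈ Y, G.Adj x w) with hNp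
  obtain ⟨Y, hY, hmax⟩ := Finset.exists_max_image
    ((univ.filter (fun x : V => X x ∧ ¬ D x ∧ dg G x = Δ)).powerset)
    (fun Y => (Y.card : ℤ) - (Np Y).card) ⟨∅, by simp⟩
  rw [mem_powerset] at hY
  have hYX : ∀ x ∈ Y, X x ∧ ¬ D x ∧ dg G x = Δ := fun x hx => (mem_filter.1 (hY hx)).2
  set Z : Finset V := Np Y with hZ
  have hZm : ∀ w, w ∈ Z ↔ (¬ D w ∧ dg G w = Δ) ∧ ∃ x ∈ Y, G.Adj x w := by
    intro w
    simp [hZ, hNp]
  have hZX : ∀ w ∈ Z, ¬ X w := by
    intro w hw
    obtain ⟨_, x, hx, hxw⟩ := (hZm w).1 hw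
    exact (hX x w hxw).1 (hYX x hx).1
  have hdgG : ∀ v, (univ.filter (fun w => G.Adj v w)).card ≤ Δ := by
    intro v
    rw [← dg_eq]
    exact hΔ v
  obtain ⟨KA, hKA⟩ : ∃ K : SimpleGraph V, ∀ a b, K.Adj a b ↔ G.Adj a b ∧ (a ∈ Y ∨ b ∈ Y) :=
    ⟨{ Adj := fun a b => G.Adj a b ∧ (a ∈ Y ∨ b ∈ Y)
       symm := ⟨fun a b h => ⟨h.1.symm, h.2.symm⟩⟩
       loopless := ⟨fun a h => G.loopless.irrefl a h.1⟩ }, fun _ _ => Iff.rfl⟩
  obtain ⟨KB, hKB⟩ : ∃ K : SimpleGraph V, ∀ a b, K.Adj a b ↔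
      G.Adj a b ∧ ((¬ X a ∧ (¬ D a ∧ dg G a = Δ) ∧ a ∉ Z) ∨
        (¬ X b ∧ (¬ D b ∧ dg G b = Δ) ∧ b ∉ Z)) :=
    ⟨{ Adj := fun a b => G.Adj a b ∧ ((¬ X a ∧ (¬ D a ∧ dg G a = Δ) ∧ a ∉ Z) ∨
        (¬ X b ∧ (¬ D b ∧ dg G b = Δ) ∧ b ∉ Z))
       symm := ⟨fun a b h => ⟨h.1.symm, h.2.symm⟩⟩
       loopless := ⟨fun a h => G.loopless.irrefl a h.1⟩ }, fun _ _ => Iff.rfl⟩
  have hKAd : ∀ v, (univ.filter (fun w => KA.Adj v w)).card ≤ Δ := fun v =>
    (card_le_card fun w hw => by
      rw [mem_filter] at hw ⊢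
      exact ⟨mem_univ _, ((hKA v w).1 hw.2).1⟩).trans (hdgG v)
  have hKBd : ∀ v, (univ.filter (fun w => KB.Adj v w)).card ≤ Δ := fun v =>
    (card_le_card fun w hw => by
      rw [mem_filter] at hw ⊢
      exact ⟨mem_univ _, ((hKB v w).1 hw.2).1⟩).trans (hdgG v)
  obtain ⟨FA, hFA1, hFA2, hFA3⟩ := md KA X (fun u v h => hX u v ((hKA u v).1 h).1)
    (fun v => ¬ D v ∧ dg G v = Δ ∧ (v ∈ Y ∨ v ∈ Z)) (by
    intro S hS hor
    rcases hor with hor | hor
    · refine hall_deg KA Δ hΔ0 S ?_ hKAd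
      intro v hv
      obtain ⟨_, h2, h3⟩ := hS v hv
      have h4 : v ∈ Y := by
        rcases h3 with h3 | h3
        · exact h3
        · exact absurd (hor v hv) (hZX v h3)
      rw [← h2, dg_eq]
      refine card_le_card fun w hw => ?_
      rw [mem_filter] at hw ⊢
      exact ⟨mem_univ _, (hKA v w).2 ⟨hw.2, Or.inl h4⟩⟩
    · set W : Finset V := univ.filter (fun w => ∃ v ∈ S, KA.Adj v w) with hW
      have hSZ : S ⊆ Z := by
        intro v hv
        obtain ⟨_, _, h3⟩ := hS v hv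
        rcases h3 with h3 | h3
        · exact absurd (hYX v h3).1 (hor v hv)
        · exact h3
      have h1 := hmax (Y \ W) (mem_powerset.2 (sdiff_subset.trans hY))
      have h2 : (Np (Y \ W)).card + S.card ≤ Z.card := by
        rw [← card_union_of_disjoint]
        · refine card_le_card ?_
          intro w hw
          rcases mem_union.1 hw with hw | hw
          · obtain ⟨_, h3, x, hx, hxw⟩ := mem_filter.1 hw
            exact (hZm w).2 ⟨h3, x, (mem_sdiff.1 hx).1, hxw⟩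
          · exact hSZ hw
        · rw [disjoint_left]
          intro w hw hwS
          obtain ⟨_, _, x, hx, hxw⟩ := mem_filter.1 hw
          obtain ⟨hx1, hx2⟩ := mem_sdiff.1 hx
          exact hx2 (mem_filter.2 ⟨mem_univ _, w, hwS, (hKA w x).2 ⟨hxw.symm, Or.inr hx1⟩⟩)
      have h3 : Y.card ≤ (Y \ W).card + W.card := Finset.card_le_card_sdiff_add_card
      have h1' : ((Y \ W).card : ℤ) - (Np (Y \ W)).card ≤ (Y.card : ℤ) - Z.card := h1
      omega)
  obtain ⟨FB, hFB1, hFB2, hFB3⟩ := md KB X (fun u v h => hX u v ((hKB u v).1 h).1)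
    (fun v => ¬ D v ∧ dg G v = Δ ∧ v ∉ Y ∧ v ∉ Z) (by
    intro S hS hor
    rcases hor with hor | hor
    · set W : Finset V := univ.filter (fun w => ∃ v ∈ S, KB.Adj v w) with hW
      have hSY : Disjoint Y S := by
        rw [disjoint_left]
        intro v hv1 hv2
        exact (hS v hv2).2.2.1 hv1
      have h1 := hmax (Y ∪ S) (mem_powerset.2 (union_subset hY (fun v hv =>
        mem_filter.2 ⟨mem_univ _, hor v hv, (hS v hv).1, (hS v hv).2.1⟩)))
      have h2 : (Np (Y ∪ S)).card ≤ Z.card + W.card := by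
        refine (card_le_card ?_).trans (card_union_le Z W)
        intro w hw
        obtain ⟨_, h3, x, hx, hxw⟩ := mem_filter.1 hw
        rw [mem_union]
        rcases mem_union.1 hx with hx | hx
        · exact Or.inl ((hZm w).2 ⟨h3, x, hx, hxw⟩)
        · by_cases hwZ : w ∈ Z
          · exact Or.inl hwZ
          · right
            refine mem_filter.2 ⟨mem_univ _, x, hx, (hKB x w).2 ⟨hxw, Or.inr ⟨?_, h3, hwZ⟩⟩⟩
            exact (hX x w hxw).1 (hor x hx)
      have h1' : ((Y ∪ S).card : ℤ) - (Np (Y ∪ S)).card ≤ (Y.card : ℤ) - Z.card := h1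
      rw [card_union_of_disjoint hSY] at h1'
      push_cast at h1'
      omega
    · refine hall_deg KB Δ hΔ0 S ?_ hKBd
      intro v hv
      obtain ⟨h1, h2, _, h4⟩ := hS v hv
      rw [← h2, dg_eq]
      refine card_le_card fun w hw => ?_
      rw [mem_filter] at hw ⊢
      exact ⟨mem_univ _, (hKB v w).2 ⟨hw.2, Or.inl ⟨hor v hv, ⟨h1, h2⟩, h4⟩⟩⟩)
  have hA : ∀ x w, X x → FA.Adj x w → x ∈ Y := by
    intro x w hx hxw
    obtain ⟨h1, h2⟩ := (hKA x w).1 (hFA1 hxw)
    rcases h2 with h2 | h2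
    · exact h2
    · exact absurd (hYX w h2).1 ((hX x w h1).1 hx)
  have hB : ∀ y w, ¬ X y → FB.Adj y w → (¬ D y ∧ dg G y = Δ) ∧ y ∉ Z := by
    intro y w hy hyw
    obtain ⟨h1, h2⟩ := (hKB y w).1 (hFB1 hyw)
    rcases h2 with h2 | h2
    · exact h2.2
    · exact absurd ((hX y w h1).2 h2.1) hy
  refine ⟨FA, FB, fun a b h => ((hKA a b).1 (hFA1 h)).1, fun a b h => ((hKB a b).1 (hFB1 h)).1,
    hFA2, hFB2, ?_, ?_, ?_, ?_⟩
  · intro x w hx hxw
    exact (hYX x (hA x w hx hxw)).2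
  · intro y w hy hyw
    exact (hB y w hy hyw).1
  · intro x y hx hxy
    by_contra hcon
    push Not at hcon
    obtain ⟨⟨w, hw⟩, w', hw'⟩ := hcon
    have h1 := hA x w hx hw
    obtain ⟨h2, h3⟩ := hB y w' ((hX x y hxy).1 hx) hw'
    exact h3 ((hZm y).2 ⟨h2, x, h1, hxy⟩)
  · intro v hv hd
    by_cases h : v ∈ Y ∨ v ∈ Z
    · exact Or.inl (hFA3 v ⟨hv, hd, h⟩)
    · push Not at h
      exact Or.inr (hFB3 v ⟨hv, hd, h.1, h.2⟩)

open Classical in
/-- List edge colourings of bipartite graphs with two matchings as in `two`: the lists need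
`n + 1` colours, and only `n` colours for the edges `xy`, `x ∈ X`, such that `x` is not covered by
`FA` and `y` is not covered by `FB`. -/
theorem list_two {V : Type} [Fintype V] (G G0 FA FB : SimpleGraph V) (hG : G0 ≤ G)
    (hAm : ∀ u v w, FA.Adj u v → FA.Adj u w → v = w)
    (hBm : ∀ u v w, FB.Adj u v → FB.Adj u w → v = w)
    (X : V → Prop) (hX : ∀ u v, G.Adj u v → (X u ↔ ¬ X v))
    (hAB : ∀ x y, X x → G.Adj x y → (∀ w, ¬ FA.Adj x w) ∨ (∀ w, ¬ FB.Adj y w))
    (n : ℕ) (hn : ∀ v, dg ((G0 \ FA) \ FB) v ≤ n) (L : Sym2 V → Finset ℕ)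
    (hL : ∀ x y, X x → G0.Adj x y → n + 1 ≤ (L s(x, y)).card ∨
      (n ≤ (L s(x, y)).card ∧ (∀ w, ¬ FA.Adj x w) ∧ (∀ w, ¬ FB.Adj y w))) :
    ∃ c, Ok G0 L c := by
  -- the colouring of the edges outside the two matchings
  set E1 : Finset (V × V) := univ.filter (fun e => X e.1 ∧ ((G0 \ FA) \ FB).Adj e.1 e.2) with hE1
  obtain ⟨c1, hc1, hc2⟩ := K1 E1 n (by
    intro u
    refine le_trans ?_ (hn u)
    rw [dg_eq]
    refine card_le_card_of_injOn (fun e => e.2) ?_ ?_
    · intro e he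
      have he' := mem_filter.1 (mem_coe.1 he)
      rw [hE1, mem_filter] at he'
      rw [mem_coe, mem_filter]
      obtain ⟨⟨_, _, h1⟩, h2⟩ := he'
      rw [← h2]
      exact ⟨mem_univ _, h1⟩
    · intro e he f hf hef
      have he' := mem_filter.1 (mem_coe.1 he)
      have hf' := mem_filter.1 (mem_coe.1 hf)
      exact Prod.ext (he'.2.trans hf'.2.symm) hef) (by
    intro u
    refine le_trans ?_ (hn u)
    rw [dg_eq]
    refine card_le_card_of_injOn (fun e => e.1) ?_ ?_
    · intro e he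
      have he' := mem_filter.1 (mem_coe.1 he)
      rw [hE1, mem_filter] at he'
      rw [mem_coe, mem_filter]
      obtain ⟨⟨_, _, h1⟩, h2⟩ := he'
      rw [← h2]
      exact ⟨mem_univ _, h1.symm⟩
    · intro e he f hf hef
      have he' := mem_filter.1 (mem_coe.1 he)
      have hf' := mem_filter.1 (mem_coe.1 hf)
      exact Prod.ext hef (he'.2.trans hf'.2.symm))
  set E : Finset (V × V) := univ.filter (fun e => X e.1 ∧ G0.Adj e.1 e.2) with hE
  have hEm : ∀ e, e ∈ E ↔ X e.1 ∧ G0.Adj e.1 e.2 := by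
    intro e
    simp [hE]
  have hE1m : ∀ e, e ∈ E → ¬ FA.Adj e.1 e.2 → ¬ FB.Adj e.1 e.2 → e ∈ E1 := by
    intro e he hA hB
    rw [hE1, mem_filter]
    exact ⟨mem_univ _, ((hEm e).1 he).1, ⟨((hEm e).1 he).2, hA⟩, hB⟩
  have hdis : ∀ e ∈ E, FA.Adj e.1 e.2 → ¬ FB.Adj e.1 e.2 := by
    intro e he hA hB
    rcases hAB e.1 e.2 ((hEm e).1 he).1 (hG ((hEm e).1 he).2) with h | h
    · exact h _ hA
    · exact h _ hB.symm
  set c : V × V → ℕ := fun e => if FA.Adj e.1 e.2 then n + 1 else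
    if FB.Adj e.1 e.2 then 0 else c1 e + 1 with hc
  have hcA : ∀ e, FA.Adj e.1 e.2 → c e = n + 1 := fun e h => by simp only [hc]; rw [if_pos h]
  have hcB : ∀ e, ¬ FA.Adj e.1 e.2 → FB.Adj e.1 e.2 → c e = 0 := fun e h h' => by
    simp only [hc]; rw [if_neg h, if_pos h']
  have hcN : ∀ e, ¬ FA.Adj e.1 e.2 → ¬ FB.Adj e.1 e.2 → c e = c1 e + 1 := fun e h h' => by
    simp only [hc]; rw [if_neg h, if_neg h']
  have hcle : ∀ e ∈ E, c e ≤ n + 1 := by
    intro e he
    by_cases hA : FA.Adj e.1 e.2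
    · rw [hcA e hA]
    · by_cases hB : FB.Adj e.1 e.2
      · rw [hcB e hA hB]; omega
      · rw [hcN e hA hB]
        have := hc1 e (hE1m e he hA hB)
        omega
  have hclt : ∀ e ∈ E, ¬ FA.Adj e.1 e.2 → c e < n + 1 := by
    intro e he hA
    by_cases hB : FB.Adj e.1 e.2
    · rw [hcB e hA hB]; omega
    · rw [hcN e hA hB]
      have := hc1 e (hE1m e he hA hB)
      omega
  have hcpos : ∀ e ∈ E, ¬ FB.Adj e.1 e.2 → 0 < c e := by
    intro e he hB
    by_cases hA : FA.Adj e.1 e.2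
    · rw [hcA e hA]; omega
    · rw [hcN e hA hB]; omega
  have hinj : ∀ e ∈ E, ∀ f ∈ E, e.1 = f.1 ∨ e.2 = f.2 → c e = c f → e = f := by
    intro e he f hf hor heq
    by_cases hAe : FA.Adj e.1 e.2
    · by_cases hAf : FA.Adj f.1 f.2
      · rcases hor with h | h
        · rw [← h] at hAf
          exact Prod.ext h (hAm e.1 e.2 f.2 hAe hAf)
        · rw [← h] at hAf
          exact Prod.ext (hAm e.2 e.1 f.1 hAe.symm hAf.symm) h
      · have h1 := hclt f hf hAf
        have h2 := hcA e hAe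
        omega
    · by_cases hAf : FA.Adj f.1 f.2
      · have h1 := hclt e he hAe
        have h2 := hcA f hAf
        omega
      · by_cases hBe : FB.Adj e.1 e.2
        · by_cases hBf : FB.Adj f.1 f.2
          · rcases hor with h | h
            · rw [← h] at hBf
              exact Prod.ext h (hBm e.1 e.2 f.2 hBe hBf)
            · rw [← h] at hBf
              exact Prod.ext (hBm e.2 e.1 f.1 hBe.symm hBf.symm) h
          · have h1 := hcpos f hf hBf
            have h2 := hcB e hAe hBe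
            omega
        · by_cases hBf : FB.Adj f.1 f.2
          · have h1 := hcpos e he hBe
            have h2 := hcB f hAf hBf
            omega
          · by_contra hne
            refine hc2 e (hE1m e he hAe hBe) f (hE1m f hf hAf hBf) hne hor ?_
            have h1 := hcN e hAe hBe
            have h2 := hcN f hAf hBf
            omega
  obtain ⟨φ, hφ⟩ := from_ranks E c hinj (fun e => L s(e.1, e.2)) (by
    intro e he
    obtain ⟨hXe, hGe⟩ := (hEm e).1 he
    have hinj1 : Set.InjOn c ↑(E.filter (fun f => f.2 = e.2 ∧ c f < c e)) := by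
      intro f hf g hg hfg
      have hf' := mem_filter.1 (mem_coe.1 hf)
      have hg' := mem_filter.1 (mem_coe.1 hg)
      exact hinj f hf'.1 g hg'.1 (Or.inr (hf'.2.1.trans hg'.2.1.symm)) hfg
    have hinj2 : Set.InjOn c ↑(E.filter (fun f => f.1 = e.1 ∧ c e < c f)) := by
      intro f hf g hg hfg
      have hf' := mem_filter.1 (mem_coe.1 hf)
      have hg' := mem_filter.1 (mem_coe.1 hg)
      exact hinj f hf'.1 g hg'.1 (Or.inl (hf'.2.1.trans hg'.2.1.symm)) hfg
    have hlow : (E.filter (fun f => f.2 = e.2 ∧ c f < c e)).card ≤ c e := by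
      calc (E.filter (fun f => f.2 = e.2 ∧ c f < c e)).card ≤ (range (c e)).card := by
            refine card_le_card_of_injOn c ?_ hinj1
            intro f hf
            have hf' := mem_filter.1 (mem_coe.1 hf)
            exact mem_coe.2 (mem_range.2 hf'.2.2)
        _ = c e := card_range _
    have hhigh : (E.filter (fun f => f.1 = e.1 ∧ c e < c f)).card ≤ n + 1 - c e := by
      calc (E.filter (fun f => f.1 = e.1 ∧ c e < c f)).card ≤ (Ioc (c e) (n + 1)).card := by
            refine card_le_card_of_injOn c ?_ hinj2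
            intro f hf
            have hf' := mem_filter.1 (mem_coe.1 hf)
            exact mem_coe.2 (mem_Ioc.2 ⟨hf'.2.2, hcle f hf'.1⟩)
        _ = n + 1 - c e := Nat.card_Ioc _ _
    have hlow' : (∀ w, ¬ FB.Adj e.2 w) →
        (E.filter (fun f => f.2 = e.2 ∧ c f < c e)).card + 1 ≤ c e := by
      intro hB
      have h0 := hcpos e he (fun h => hB _ h.symm)
      have : (E.filter (fun f => f.2 = e.2 ∧ c f < c e)).card ≤ (Ico 1 (c e)).card := by
        refine card_le_card_of_injOn c ?_ hinj1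
        intro f hf
        have hf' := mem_filter.1 (mem_coe.1 hf)
        refine mem_coe.2 (mem_Ico.2 ⟨hcpos f hf'.1 ?_, hf'.2.2⟩)
        rw [hf'.2.1]
        exact fun h => hB _ h.symm
      rw [Nat.card_Ico] at this
      omega
    have hhigh' : (∀ w, ¬ FA.Adj e.1 w) →
        (E.filter (fun f => f.1 = e.1 ∧ c e < c f)).card + c e ≤ n := by
      intro hA
      have h0 := hclt e he (hA _)
      have : (E.filter (fun f => f.1 = e.1 ∧ c e < c f)).card ≤ (Ioc (c e) n).card := by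
        refine card_le_card_of_injOn c ?_ hinj2
        intro f hf
        have hf' := mem_filter.1 (mem_coe.1 hf)
        refine mem_coe.2 (mem_Ioc.2 ⟨hf'.2.2, ?_⟩)
        have h3 := hclt f hf'.1 (by rw [hf'.2.1]; exact hA _)
        omega
      rw [Nat.card_Ioc] at this
      omega
    have hc0 := hcle e he
    show _ < (L s(e.1, e.2)).card
    by_cases hA : ∀ w, ¬ FA.Adj e.1 w
    · have h1 := hhigh' hA
      by_cases hB : ∀ w, ¬ FB.Adj e.2 w
      · have h2 := hlow' hB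
        rcases hL e.1 e.2 hXe hGe with h | h
        · omega
        · omega
      · rcases hL e.1 e.2 hXe hGe with h | h
        · omega
        · exact absurd h.2.2 hB
    · have hB : ∀ w, ¬ FB.Adj e.2 w := (hAB e.1 e.2 hXe (hG hGe)).resolve_left hA
      have h2 := hlow' hB
      rcases hL e.1 e.2 hXe hGe with h | h
      · omega
      · exact absurd h.2.1 hA)
  refine of_pairs G0 X (fun u v huv => hX u v (hG huv)) L φ ?_ ?_ ?_
  · intro x y hx hxy
    exact (hφ (x, y) ((hEm (x, y)).2 ⟨hx, hxy⟩)).1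
  · intro x y y' hx hxy hxy' hne
    exact (hφ (x, y') ((hEm (x, y')).2 ⟨hx, hxy'⟩)).2 (x, y) ((hEm (x, y)).2 ⟨hx, hxy⟩)
      (fun h => hne (congrArg Prod.snd h)) (Or.inl rfl)
  · intro x x' y hx hx' hxy hxy' hne
    exact (hφ (x', y) ((hEm (x', y)).2 ⟨hx', hxy'⟩)).2 (x, y) ((hEm (x, y)).2 ⟨hx, hxy⟩)
      (fun h => hne (congrArg Prod.fst h)) (Or.inr rfl)

end Pool.Agent.H439.TB
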