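import Mathlib
import Pool.Agent.H439.TB.Two

/-!
# Extending total colourings of distance-3 matchings in all bipartite graphs
-/

set_option autoImplicit false

namespace Pool.Agent.H439.TB

open Finset Pool.Agent.TH559.LE Pool.Agent.R61.TotExt

/-- `f` (colours of the vertices) and `g` (colours of the edges) form a total colouring of `G`
with natural numbers as colours: adjacent vertices have different colours, edges that share an end
have different colours, and the colour of an edge differs from the colours of its ends. -/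
def IsTot {V : Type} (G : SimpleGraph V) (f : V → ℕ) (g : Sym2 V → ℕ) : Prop :=
  (∀ u v, G.Adj u v → f u ≠ f v) ∧
  (∀ u v w, G.Adj u v → G.Adj u w → v ≠ w → g s(u, v) ≠ g s(u, w)) ∧
  ∀ u v, G.Adj u v → g s(u, v) ≠ f u

open Classical in
/-- Greedy extension of a vertex colouring, with lists. -/
theorem vextL {V : Type} [Fintype V] (G : SimpleGraph V) (LV : V → Finset ℕ) (f0 : V → ℕ)
    (D : V → Prop) (hprop : ∀ u v, D u → D v → G.Adj u v → f0 u ≠ f0 v)
    (hdeg : ∀ v, dg G v < (LV v).card) :
    ∃ f : V → ℕ, (∀ v, D v → f v = f0 v) ∧ (∀ v, ¬ D v → f v ∈ LV v) ∧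
      ∀ u v, G.Adj u v → f u ≠ f v := by
  have key : ∀ S : Finset V, ∃ f : V → ℕ, (∀ v, D v → f v = f0 v) ∧
      (∀ v, ¬ D v → v ∈ S → f v ∈ LV v) ∧
      ∀ u v, (D u ∨ u ∈ S) → (D v ∨ v ∈ S) → G.Adj u v → f u ≠ f v := by
    intro S
    induction S using Finset.induction_on with
    | empty =>
      refine ⟨f0, fun _ _ => rfl, fun _ _ h => absurd h (notMem_empty _), ?_⟩
      intro u v hu hv
      simp only [notMem_empty, or_false] at hu hv
      exact hprop u v hu hv
    | insert a S _ ih =>
      obtain ⟨f, h1, h1', h2⟩ := ih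
      by_cases ha : D a
      · refine ⟨f, h1, ?_, ?_⟩
        · intro v hv hvS
          rcases mem_insert.1 hvS with rfl | h
          · exact absurd ha hv
          · exact h1' v hv h
        intro u v hu hv
        apply h2
        · rcases hu with hu | hu
          · exact Or.inl hu
          · rcases mem_insert.1 hu with rfl | hu
            · exact Or.inl ha
            · exact Or.inr hu
        · rcases hv with hv | hv
          · exact Or.inl hv
          · rcases mem_insert.1 hv with rfl | hv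
            · exact Or.inl ha
            · exact Or.inr hv
      · have hcard : ((univ.filter (fun w => G.Adj a w)).image f).card < (LV a).card := by
          refine lt_of_le_of_lt card_image_le ?_
          rw [← dg_eq]
          exact hdeg a
        obtain ⟨γ, hγ0, hγ⟩ := exists_mem_notMem_of_card_lt_card hcard
        have hγ' : ∀ w, G.Adj a w → f w ≠ γ := by
          intro w hw heq
          exact hγ (mem_image.2 ⟨w, by simpa using hw, heq⟩)
        refine ⟨Function.update f a γ, ?_, ?_, ?_⟩
        · intro v hv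
          have hva : v ≠ a := by
            rintro rfl
            exact ha hv
          rw [Function.update_of_ne hva]
          exact h1 v hv
        · intro v hv hvS
          by_cases hva : v = a
          · subst hva
            rw [Function.update_self]
            exact hγ0
          · rw [Function.update_of_ne hva]
            exact h1' v hv ((mem_insert.1 hvS).resolve_left hva)
        · intro u v hu hv huv
          by_cases hua : u = a
          · subst hua
            have hvu : v ≠ u := huv.ne'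
            rw [Function.update_self, Function.update_of_ne hvu]
            exact (hγ' v huv).symm
          · by_cases hva : v = a
            · subst hva
              rw [Function.update_self, Function.update_of_ne hua]
              exact hγ' u huv.symm
            · rw [Function.update_of_ne hua, Function.update_of_ne hva]
              refine h2 u v ?_ ?_ huv
              · rcases hu with hu | hu
                · exact Or.inl hu
                · exact Or.inr ((mem_insert.1 hu).resolve_left hua)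
              · rcases hv with hv | hv
                · exact Or.inl hv
                · exact Or.inr ((mem_insert.1 hv).resolve_left hva)
  obtain ⟨f, h1, h1', h2⟩ := key univ
  exact ⟨f, h1, fun v hv => h1' v hv (mem_univ v),
    fun u v huv => h2 u v (Or.inr (mem_univ u)) (Or.inr (mem_univ v)) huv⟩

open Classical in
/-- Reduction to a list colouring of the edges outside the precoloured matching. -/
theorem coreL {V : Type} [Fintype V] (G H : SimpleGraph V)
    (hmatch : ∀ u v w, H.Adj u v → H.Adj u w → v = w) (LE : Sym2 V → Finset ℕ)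
    (f0 : V → ℕ) (g0 : Sym2 V → ℕ) (h0 : IsTot H f0 g0)
    (f : V → ℕ) (hf0 : ∀ v, (∃ x, H.Adj v x) → f v = f0 v)
    (hf : ∀ u v, G.Adj u v → f u ≠ f v)
    (hlist : ∀ L : Sym2 V → Finset ℕ,
      (∀ u v, (G \ H).Adj u v → ∀ γ : ℕ, γ ∈ L s(u, v) ↔
        (γ ∈ LE s(u, v) ∧ γ ≠ f u ∧ γ ≠ f v ∧
        (∀ x, H.Adj u x → γ ≠ g0 s(u, x)) ∧ ∀ x, H.Adj v x → γ ≠ g0 s(v, x))) →
      ∃ c, Ok (G \ H) L c) :
    ∃ g : Sym2 V → ℕ, IsTot G f g ∧ (∀ u v, H.Adj u v → g s(u, v) = g0 s(u, v)) ∧
      ∀ u v, G.Adj u v → ¬ H.Adj u v → g s(u, v) ∈ LE s(u, v) := by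
  set P : ℕ → Sym2 V → Prop := fun γ z => ∀ w ∈ z, γ ≠ f w ∧
    ∀ x, H.Adj w x → γ ≠ g0 s(w, x) with hP
  obtain ⟨c, hc⟩ := hlist (fun z => (LE z).filter (fun γ => P γ z)) (by
    intro u v _ γ
    simp only [mem_filter, hP, Sym2.mem_iff, forall_eq_or_imp, forall_eq]
    tauto)
  have hcm : ∀ u v, (G \ H).Adj u v → c s(u, v) ∈ LE s(u, v) ∧ P (c s(u, v)) s(u, v) := by
    intro u v huv
    have := hc.1 u v huv
    rwa [mem_filter] at this
  have hin : ∀ u v, H.Adj u v →
      (fun z => if z ∈ H.edgeSet then g0 z else c z) s(u, v) = g0 s(u, v) := by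
    intro u v huv
    simp only
    rw [if_pos ((SimpleGraph.mem_edgeSet H).2 huv)]
  have hout : ∀ u v, (G \ H).Adj u v →
      (fun z => if z ∈ H.edgeSet then g0 z else c z) s(u, v) = c s(u, v) := by
    intro u v huv
    simp only
    rw [if_neg (fun h => huv.2 ((SimpleGraph.mem_edgeSet H).1 h))]
  refine ⟨fun z => if z ∈ H.edgeSet then g0 z else c z, ⟨hf, ?_, ?_⟩, hin, ?_⟩
  · intro u v w huv huw hne
    by_cases h1 : H.Adj u v
    · by_cases h2 : H.Adj u w
      · exact absurd (hmatch u v w h1 h2) hne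
      · intro h3
        rw [hin u v h1, hout u w ⟨huw, h2⟩] at h3
        exact ((hcm u w ⟨huw, h2⟩).2 u (Sym2.mem_mk_left _ _)).2 v h1 h3.symm
    · by_cases h2 : H.Adj u w
      · intro h3
        rw [hin u w h2, hout u v ⟨huv, h1⟩] at h3
        exact ((hcm u v ⟨huv, h1⟩).2 u (Sym2.mem_mk_left _ _)).2 w h2 h3
      · intro h3
        rw [hout u w ⟨huw, h2⟩, hout u v ⟨huv, h1⟩] at h3
        exact hc.2 u v w ⟨huv, h1⟩ ⟨huw, h2⟩ hne h3
  · intro u v huv
    by_cases h1 : H.Adj u v
    · rw [hin u v h1, hf0 u ⟨v, h1⟩]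
      exact h0.2.2 u v h1
    · rw [hout u v ⟨huv, h1⟩]
      exact ((hcm u v ⟨huv, h1⟩).2 u (Sym2.mem_mk_left _ _)).1
  · intro u v huv h1
    rw [hout u v ⟨huv, h1⟩]
    exact (hcm u v ⟨huv, h1⟩).1

open Classical in
/-- The colour of a vertex `y` next to an end with colour `a` of a precoloured edge with colour
`c`: it differs from `a`, and at least `Δ` colours of the list `S` of the edge between them
remain. -/
theorem choice (Δ : ℕ) (T S : Finset ℕ) (a c : ℕ) (hac : c ≠ a) (hT : Δ + 2 ≤ T.card)
    (hS : Δ + 2 ≤ S.card) : ∃ b ∈ T, b ≠ a ∧ Δ ≤ (S \ {a, b, c}).card := by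
  have h2 : ∀ x y : ℕ, Δ ≤ (S \ {x, y}).card := by
    intro x y
    have h3 := Finset.card_le_card_sdiff_add_card (s := S) (t := {x, y})
    have h4 : ({x, y} : Finset ℕ).card ≤ 2 := card_le_two
    omega
  by_cases hc : c ∈ S
  · by_cases ha : a ∈ S
    · by_cases hcT : c ∈ T
      · refine ⟨c, hcT, hac, ?_⟩
        have : S \ {a, c, c} = S \ {a, c} := by
          ext x; simp
        rw [this]
        exact h2 a c
      · by_cases hbig : Δ + 3 ≤ S.card
        · have hT' : ({a} : Finset ℕ).card < T.card := by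
            rw [card_singleton]; omega
          obtain ⟨b, hb, hba⟩ := exists_mem_notMem_of_card_lt_card hT'
          refine ⟨b, hb, fun h => hba (by simp [h]), ?_⟩
          have h3 := Finset.card_le_card_sdiff_add_card (s := S) (t := {a, b, c})
          have h4 : ({a, b, c} : Finset ℕ).card ≤ 3 := card_le_three
          omega
        · have hlt : (S.erase c).card < T.card := by
            rw [card_erase_of_mem hc]; omega
          obtain ⟨b, hb, hbS⟩ := exists_mem_notMem_of_card_lt_card hlt
          have hbc : b ≠ c := by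
            rintro rfl
            exact hcT hb
          have hbS' : b ∉ S := fun h => hbS (mem_erase.2 ⟨hbc, h⟩)
          refine ⟨b, hb, ?_, ?_⟩
          · rintro rfl
            exact hbS' ha
          · have : S \ {a, b, c} = S \ {a, c} := by
              ext x
              simp only [mem_sdiff, mem_insert, mem_singleton, not_or]
              constructor
              · rintro ⟨h1, h3, _, h5⟩
                exact ⟨h1, h3, h5⟩
              · rintro ⟨h1, h3, h5⟩
                refine ⟨h1, h3, ?_, h5⟩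
                rintro rfl
                exact hbS' h1
            rw [this]
            exact h2 a c
    · have hT' : ({a} : Finset ℕ).card < T.card := by
        rw [card_singleton]; omega
      obtain ⟨b, hb, hba⟩ := exists_mem_notMem_of_card_lt_card hT'
      refine ⟨b, hb, fun h => hba (by simp [h]), ?_⟩
      have : S \ {a, b, c} = S \ {b, c} := by
        ext x
        simp only [mem_sdiff, mem_insert, mem_singleton, not_or]
        constructor
        · rintro ⟨h1, _, h4, h5⟩
          exact ⟨h1, h4, h5⟩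
        · rintro ⟨h1, h4, h5⟩
          refine ⟨h1, ?_, h4, h5⟩
          rintro rfl
          exact ha h1
      rw [this]
      exact h2 b c
  · have hT' : ({a} : Finset ℕ).card < T.card := by
      rw [card_singleton]; omega
    obtain ⟨b, hb, hba⟩ := exists_mem_notMem_of_card_lt_card hT'
    refine ⟨b, hb, fun h => hba (by simp [h]), ?_⟩
    have : S \ {a, b, c} = S \ {a, b} := by
      ext x
      simp only [mem_sdiff, mem_insert, mem_singleton, not_or]
      constructor
      · rintro ⟨h1, h3, h4, _⟩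
        exact ⟨h1, h3, h4⟩
      · rintro ⟨h1, h3, h4⟩
        refine ⟨h1, h3, h4, ?_⟩
        rintro rfl
        exact hc h1
    rw [this]
    exact h2 a b

open Classical in
/-- Extension of the total colourings of distance-3 matchings of bipartite graphs, from lists. -/
theorem main {V : Type} [Fintype V] (G H : SimpleGraph V) (Δ : ℕ) (X : V → Prop)
    (hX : ∀ u v, G.Adj u v → (X u ↔ ¬ X v))
    (hΔ : ∀ v, (G.neighborSet v).ncard ≤ Δ) (hHG : H ≤ G)
    (hmatch : ∀ u v w, H.Adj u v → H.Adj u w → v = w)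
    (hdist : ∀ u v x y, H.Adj u v → H.Adj x y → s(u, v) ≠ s(x, y) → 3 ≤ G.edist u x)
    (LV : V → Finset ℕ) (LE : Sym2 V → Finset ℕ) (hLV : ∀ v, Δ + 2 ≤ (LV v).card)
    (hLE : ∀ u v, G.Adj u v → Δ + 2 ≤ (LE s(u, v)).card)
    (f0 : V → ℕ) (g0 : Sym2 V → ℕ) (h0 : IsTot H f0 g0) :
    ∃ (f : V → ℕ) (g : Sym2 V → ℕ), IsTot G f g ∧
      (∀ u v, H.Adj u v → f u = f0 u ∧ g s(u, v) = g0 s(u, v)) ∧
      (∀ v, (∀ w, ¬ H.Adj v w) → f v ∈ LV v) ∧
      ∀ u v, G.Adj u v → ¬ H.Adj u v → g s(u, v) ∈ LE s(u, v) := by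
  have hΔ' : ∀ v, dg G v ≤ Δ := hΔ
  -- covered vertices that are adjacent form an edge of the matching
  have hA : ∀ u v, G.Adj u v → (∃ x, H.Adj u x) → (∃ y, H.Adj v y) → H.Adj u v := by
    rintro u v huv ⟨x, hx⟩ ⟨y, hy⟩
    by_contra hn
    have hne : s(u, x) ≠ s(v, y) := by
      intro h
      rw [Sym2.eq_iff] at h
      rcases h with ⟨h1, h2⟩ | ⟨h1, h2⟩
      · exact huv.ne h1
      · subst h2
        exact hn hx
    have h3 := hdist u x v y hx hy hne
    have h4 : G.edist u v ≤ 1 := by
      have := SimpleGraph.edist_le (SimpleGraph.Walk.cons huv SimpleGraph.Walk.nil)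
      simpa using this
    have h5 : (3 : ℕ∞) ≤ 1 := h3.trans h4
    exact absurd h5 (by decide)
  have hB : ∀ v w w', G.Adj v w → (∃ z, H.Adj w z) → G.Adj v w' → (∃ z', H.Adj w' z') →
      w = w' := by
    rintro v w w' hvw ⟨z, hwz⟩ hvw' ⟨z', hwz'⟩
    by_contra hne0
    have hne : s(w, z) ≠ s(w', z') := by
      intro h
      rw [Sym2.eq_iff] at h
      rcases h with ⟨h1, h2⟩ | ⟨h1, h2⟩
      · exact hne0 h1
      · subst h2
        have e1 := hX v w hvw
        have e2 := hX v z hvw'
        have e3 := hX w z (hHG hwz)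
        tauto
    have h3 := hdist w z w' z' hwz hwz' hne
    have h4 : G.edist w w' ≤ 2 := by
      have := SimpleGraph.edist_le (SimpleGraph.Walk.cons hvw.symm
        (SimpleGraph.Walk.cons hvw' SimpleGraph.Walk.nil))
      simpa using this
    have h5 : (3 : ℕ∞) ≤ 2 := h3.trans h4
    exact absurd h5 (by decide)
  rcases Nat.eq_zero_or_pos Δ with hΔ0 | hΔ0
  · have hno : ∀ u v, ¬ G.Adj u v := by
      intro u v huv
      have h1 := hΔ' u
      have h2 : 0 < dg G u := by
        rw [dg_eq]
        exact card_pos.2 ⟨v, by simpa using huv⟩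
      omega
    obtain ⟨f, _, hf2, _⟩ := vextL G LV f0 (fun _ => False) (fun _ _ h => absurd h (by simp))
      (fun v => by have := hΔ' v; have := hLV v; omega)
    exact ⟨f, g0, ⟨fun u v h => absurd h (hno u v), fun u v w h => absurd h (hno u v),
      fun u v h => absurd h (hno u v)⟩, fun u v h => absurd (hHG h) (hno u v),
      fun v _ => hf2 v (by simp), fun u v h => absurd h (hno u v)⟩
  set D : V → Prop := fun v => ∃ x, H.Adj v x with hD
  obtain ⟨FA, FB, hFA, hFB, hAm, hBm, hAD, hBD, hAB, hcov⟩ := two G X hX Δ hΔ0 hΔ' D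
  -- the colours of the vertices that are adjacent to covered vertices
  have hch : ∀ v w z, ¬ D v → G.Adj v w → H.Adj w z →
      ∃ b ∈ LV v, b ≠ f0 w ∧ Δ ≤ (LE s(v, w) \ {f0 w, b, g0 s(w, z)}).card :=
    fun v w z _ hvw hwz => choice Δ (LV v) (LE s(v, w)) (f0 w) (g0 s(w, z)) (h0.2.2 w z hwz)
      (hLV v) (hLE v w hvw)
  set bad : V → Prop := fun v => ¬ D v ∧ (∃ w z, G.Adj v w ∧ H.Adj w z) ∧
    ((X v ∧ ∃ t, FA.Adj v t) ∨ (¬ X v ∧ ∃ t, FB.Adj v t)) with hbad
  have hcc : ∀ v, ∃ b : ℕ, bad v → b ∈ LV v ∧ ∀ w z, G.Adj v w → H.Adj w z →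
      b ≠ f0 w ∧ Δ ≤ (LE s(v, w) \ {f0 w, b, g0 s(w, z)}).card := by
    intro v
    by_cases hv : bad v
    · obtain ⟨hv1, ⟨w, z, hvw, hwz⟩, _⟩ := hv
      obtain ⟨b, hb1, hb2, hb3⟩ := hch v w z hv1 hvw hwz
      refine ⟨b, fun _ => ⟨hb1, fun w' z' hvw' hwz' => ?_⟩⟩
      have h1 : w = w' := hB v w w' hvw ⟨z, hwz⟩ hvw' ⟨z', hwz'⟩
      subst h1
      have h2 : z = z' := hmatch w z z' hwz hwz'
      subst h2
      exact ⟨hb2, hb3⟩
    · exact ⟨0, fun h => absurd h hv⟩
  choose cc hcc using hcc
  set f1 : V → ℕ := fun v => if D v then f0 v else cc v with hf1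
  have hf1D : ∀ v, D v → f1 v = f0 v := fun v hv => by simp only [hf1]; rw [if_pos hv]
  have hf1N : ∀ v, ¬ D v → f1 v = cc v := fun v hv => by simp only [hf1]; rw [if_neg hv]
  have hone : ∀ u v, G.Adj u v → D u → bad v → f1 u ≠ f1 v := by
    rintro u v huv ⟨x, hx⟩ hv
    rw [hf1D u ⟨x, hx⟩, hf1N v hv.1]
    exact (((hcc v hv).2 u x huv.symm hx).1).symm
  have hprop : ∀ u v, (D u ∨ bad u) → (D v ∨ bad v) → G.Adj u v → f1 u ≠ f1 v := by
    intro u v hu hv huv
    rcases hu with hu | hu
    · rcases hv with hv | hv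
      · rw [hf1D u hu, hf1D v hv]
        exact h0.1 u v (hA u v huv hu hv)
      · exact hone u v huv hu hv
    · rcases hv with hv | hv
      · exact (hone v u huv.symm hv hu).symm
      · exfalso
        have hX' := hX u v huv
        rcases hu.2.2 with ⟨h1, t, ht⟩ | ⟨h1, t, ht⟩
        · rcases hv.2.2 with ⟨h2, t', ht'⟩ | ⟨h2, t', ht'⟩
          · exact hX'.1 h1 h2
          · rcases hAB u v h1 huv with h | h
            · exact h t ht
            · exact h t' ht'
        · rcases hv.2.2 with ⟨h2, t', ht'⟩ | ⟨h2, t', ht'⟩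
          · rcases hAB v u h2 huv.symm with h | h
            · exact h t' ht'
            · exact h t ht
          · exact h1 (hX'.2 h2)
  obtain ⟨f, hfD, hfL, hfG⟩ := vextL G LV f1 (fun v => D v ∨ bad v) hprop
    (fun v => by have := hΔ' v; have := hLV v; omega)
  have hff0 : ∀ v, D v → f v = f0 v := fun v hv => by rw [hfD v (Or.inl hv), hf1D v hv]
  have hffb : ∀ v, bad v → f v = cc v := fun v hv => by rw [hfD v (Or.inr hv), hf1N v hv.1]
  obtain ⟨g, hg1, hg2, hg3⟩ := coreL G H hmatch LE f0 g0 h0 f hff0 hfG (by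
    intro L hL
    -- an edge outside `H` with two uncovered ends
    have hL0 : ∀ u v, (G \ H).Adj u v → ¬ D u → ¬ D v → Δ ≤ (L s(u, v)).card := by
      intro u v huv hu hv
      have h1 : LE s(u, v) \ {f u, f v} ⊆ L s(u, v) := by
        intro γ hγ
        simp only [mem_sdiff, mem_insert, mem_singleton, not_or] at hγ
        exact (hL u v huv γ).2 ⟨hγ.1, hγ.2.1, hγ.2.2, fun x hx => absurd ⟨x, hx⟩ hu,
          fun x hx => absurd ⟨x, hx⟩ hv⟩
      have h2 := card_le_card h1
      have h3 := Finset.card_le_card_sdiff_add_card (s := LE s(u, v)) (t := {f u, f v})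
      have h4 : ({f u, f v} : Finset ℕ).card ≤ 2 := card_le_two
      have h5 := hLE u v huv.1
      omega
    -- an edge outside `H` with one covered end
    have hL1 : ∀ u v z, (G \ H).Adj u v → H.Adj v z → ¬ D u →
        LE s(u, v) \ {f0 v, f u, g0 s(v, z)} ⊆ L s(u, v) := by
      intro u v z huv hvz hu γ hγ
      simp only [mem_sdiff, mem_insert, mem_singleton, not_or] at hγ
      refine (hL u v huv γ).2 ⟨hγ.1, hγ.2.2.1, ?_, fun x hx => absurd ⟨x, hx⟩ hu, ?_⟩
      · rw [hff0 v ⟨z, hvz⟩]
        exact hγ.2.1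
      · intro x hx
        rw [hmatch v x z hx hvz]
        exact hγ.2.2.2
    have hL2 : ∀ u v z, (G \ H).Adj u v → H.Adj v z → ¬ D u → Δ - 1 ≤ (L s(u, v)).card := by
      intro u v z huv hvz hu
      have h2 := card_le_card (hL1 u v z huv hvz hu)
      have h3 := Finset.card_le_card_sdiff_add_card (s := LE s(u, v))
        (t := {f0 v, f u, g0 s(v, z)})
      have h4 : ({f0 v, f u, g0 s(v, z)} : Finset ℕ).card ≤ 3 := card_le_three
      have h5 := hLE u v huv.1
      omega
    have hL3 : ∀ u v z, (G \ H).Adj u v → H.Adj v z → bad u → Δ ≤ (L s(u, v)).card := by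
      intro u v z huv hvz hu
      have h2 := card_le_card (hL1 u v z huv hvz hu.1)
      have h3 := ((hcc u hu).2 v z huv.1 hvz).2
      rw [hffb u hu] at h2
      omega
    refine list_two G (G \ H) FA FB sdiff_le hAm hBm X hX hAB (Δ - 1) ?_ L ?_
    · intro v
      have hle : ((G \ H) \ FA) \ FB ≤ G := (sdiff_le.trans sdiff_le).trans sdiff_le
      by_cases hv : dg G v = Δ
      · have hlt : dg (((G \ H) \ FA) \ FB) v < dg G v := by
          by_cases hDv : D v
          · obtain ⟨x, hx⟩ := hDv
            exact dg_lt hle (hHG hx) (fun h => h.1.1.2 hx)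
          · rcases hcov v hDv hv with ⟨w, hw⟩ | ⟨w, hw⟩
            · exact dg_lt hle (hFA hw) (fun h => h.1.2 hw)
            · exact dg_lt hle (hFB hw) (fun h => h.2 hw)
        omega
      · have h1 := hΔ' v
        have h2 : dg (((G \ H) \ FA) \ FB) v ≤ dg G v := dg_mono hle v
        omega
    · intro x y hXx hxy
      have hyX : ¬ X y := (hX x y hxy.1).1 hXx
      by_cases hDx : D x
      · have hDy : ¬ D y := fun h => hxy.2 (hA x y hxy.1 hDx h)
        obtain ⟨z, hz⟩ := hDx
        have hsw : s(x, y) = s(y, x) := Sym2.eq_swap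
        by_cases hb : ∃ t, FB.Adj y t
        · left
          have hbady : bad y := ⟨hDy, ⟨x, z, hxy.1.symm, hz⟩, Or.inr ⟨hyX, hb⟩⟩
          have := hL3 y x z hxy.symm hz hbady
          rw [hsw]
          omega
        · right
          have := hL2 y x z hxy.symm hz hDy
          rw [hsw]
          push Not at hb
          exact ⟨this, fun w hw => (hAD x w hXx hw).1 ⟨z, hz⟩, hb⟩
      · by_cases hDy : D y
        · obtain ⟨z, hz⟩ := hDy
          by_cases hb : ∃ t, FA.Adj x t
          · left
            have hbadx : bad x := ⟨hDx, ⟨y, z, hxy.1, hz⟩, Or.inl ⟨hXx, hb⟩⟩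
            have := hL3 x y z hxy hz hbadx
            omega
          · right
            have := hL2 x y z hxy hz hDx
            push Not at hb
            exact ⟨this, hb, fun w hw => (hBD y w hyX hw).1 ⟨z, hz⟩⟩
        · left
          have := hL0 x y hxy hDx hDy
          omega)
  refine ⟨f, g, hg1, fun u v huv => ⟨hff0 u ⟨v, huv⟩, hg2 u v huv⟩, ?_, hg3⟩
  intro v hv
  have hDv : ¬ D v := fun ⟨x, hx⟩ => hv x hx
  by_cases hb : bad v
  · rw [hffb v hb]
    exact (hcc v hb).1
  · exact hfL v (by rintro (h | h); exacts [hDv h, hb h])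

/-- The case of a common set of `Δ + 2` colours. -/
theorem main_fin {V : Type} [Fintype V] (G H : SimpleGraph V) (Δ : ℕ) (X : V → Prop)
    (hX : ∀ u v, G.Adj u v → (X u ↔ ¬ X v))
    (hΔ : ∀ v, (G.neighborSet v).ncard ≤ Δ) (hHG : H ≤ G)
    (hmatch : ∀ u v w, H.Adj u v → H.Adj u w → v = w)
    (hdist : ∀ u v x y, H.Adj u v → H.Adj x y → s(u, v) ≠ s(x, y) → 3 ≤ G.edist u x)
    (f0 : V → Fin (Δ + 2)) (g0 : Sym2 V → Fin (Δ + 2)) (h0 : IsTotal H f0 g0) :
    ∃ (f : V → Fin (Δ + 2)) (g : Sym2 V → Fin (Δ + 2)), IsTotal G f g ∧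
      ∀ u v, H.Adj u v → f u = f0 u ∧ g s(u, v) = g0 s(u, v) := by
  classical
  obtain ⟨f, g, ⟨h1, h2, h3⟩, h4, h5, h6⟩ := main G H Δ X hX hΔ hHG hmatch hdist
    (fun _ => range (Δ + 2)) (fun _ => range (Δ + 2)) (fun _ => by rw [card_range])
    (fun _ _ _ => by rw [card_range]) (fun v => (f0 v).1) (fun z => (g0 z).1)
    ⟨fun u v h he => h0.1 u v h (Fin.ext he), fun u v w h h' hne he =>
      h0.2.1 u v w h h' hne (Fin.ext he), fun u v h he => h0.2.2 u v h (Fin.ext he)⟩
  have hf : ∀ v, f v < Δ + 2 := by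
    intro v
    by_cases hv : ∃ x, H.Adj v x
    · obtain ⟨x, hx⟩ := hv
      rw [(h4 v x hx).1]
      exact (f0 v).2
    · push Not at hv
      exact mem_range.1 (h5 v hv)
  have hg : ∀ u v, G.Adj u v → g s(u, v) < Δ + 2 := by
    intro u v huv
    by_cases h : H.Adj u v
    · rw [(h4 u v h).2]
      exact (g0 s(u, v)).2
    · exact mem_range.1 (h6 u v huv h)
  set g' : Sym2 V → Fin (Δ + 2) := fun z => if h : g z < Δ + 2 then ⟨g z, h⟩ else g0 z with hg'
  have hgv : ∀ u v, G.Adj u v → (g' s(u, v)).1 = g s(u, v) := by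
    intro u v huv
    simp only [hg']
    rw [dif_pos (hg u v huv)]
  refine ⟨fun v => ⟨f v, hf v⟩, g', ⟨?_, ?_, ?_⟩, ?_⟩
  · intro u v huv he
    exact h1 u v huv (congrArg Fin.val he)
  · intro u v w huv huw hne he
    have := congrArg Fin.val he
    rw [hgv u v huv, hgv u w huw] at this
    exact h2 u v w huv huw hne this
  · intro u v huv he
    have := congrArg Fin.val he
    rw [hgv u v huv] at this
    exact h3 u v huv this
  · intro u v huv
    refine ⟨Fin.ext (h4 u v huv).1, Fin.ext ?_⟩
    rw [hgv u v (hHG huv)]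
    exact (h4 u v huv).2

end Pool.Agent.H439.TB
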