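import Mathlib
import Pool.Agent.H439.TB.Two

/-!
# Extending total colourings of distance-3 matchings in graphs that are bipartite up to edges
which can be coloured greedily
-/

set_option autoImplicit false

namespace Pool.Agent.H439.TB

open Finset Pool.Agent.TH559.LE Pool.Agent.R61.TotExt

open Classical in
/-- Greedy extension along an order of the edges. -/
theorem greedy {V : Type} [Fintype V] (A C : SimpleGraph V) (hAC : A ≤ C) (r : Sym2 V → ℕ)
    (L : Sym2 V → Finset ℕ)
    (hr : ∀ u v, C.Adj u v → ¬ A.Adj u v →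
      {w | C.Adj u w ∧ (A.Adj u w ∨ r s(u, w) ≤ r s(u, v))}.ncard +
      {w | C.Adj v w ∧ (A.Adj v w ∨ r s(v, w) ≤ r s(u, v))}.ncard ≤ (L s(u, v)).card + 1)
    (c : Sym2 V → ℕ) (hc : Ok A L c) : ∃ c', Ok C L c' := by
  have key : ∀ (m : ℕ) (S : SimpleGraph V),
      (∀ u v, S.Adj u v ↔ C.Adj u v ∧ (A.Adj u v ∨ r s(u, v) < m)) → ∃ c', Ok S L c' := by
    intro m
    induction m with
    | zero =>
      intro S hS
      have : S = A := by
        ext u v
        rw [hS]
        constructor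
        · rintro ⟨_, h | h⟩
          · exact h
          · exact absurd h (Nat.not_lt_zero _)
        · exact fun h => ⟨hAC h, Or.inl h⟩
      rw [this]
      exact ⟨c, hc⟩
    | succ m ih =>
      intro S hS
      obtain ⟨T, hT⟩ : ∃ T : SimpleGraph V, ∀ u v, T.Adj u v ↔
          C.Adj u v ∧ (A.Adj u v ∨ r s(u, v) < m) :=
        ⟨{ Adj := fun u v => C.Adj u v ∧ (A.Adj u v ∨ r s(u, v) < m)
           symm := ⟨fun u v h => ⟨h.1.symm, h.2.elim (fun h' => Or.inl h'.symm)
             (fun h' => Or.inr (by rwa [Sym2.eq_swap]))⟩⟩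
           loopless := ⟨fun u h => C.loopless.irrefl u h.1⟩ }, fun _ _ => Iff.rfl⟩
      obtain ⟨c1, hc1⟩ := ih T hT
      have hTS : T ≤ S := by
        intro u v h
        obtain ⟨h1, h2⟩ := (hT u v).1 h
        exact (hS u v).2 ⟨h1, h2.elim Or.inl (fun h => Or.inr (by omega))⟩
      refine ext_greedy T S hTS L ?_ c1 hc1
      intro u v huv hnot
      obtain ⟨h1, h2⟩ := (hS u v).1 huv
      have hA : ¬ A.Adj u v := fun h => hnot ((hT u v).2 ⟨h1, Or.inl h⟩)
      have hm : r s(u, v) = m := by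
        have h3 := h2.resolve_left hA
        have h4 : ¬ r s(u, v) < m := fun h => hnot ((hT u v).2 ⟨h1, Or.inr h⟩)
        omega
      have e : ∀ a, dg S a ≤ {w | C.Adj a w ∧ (A.Adj a w ∨ r s(a, w) ≤ r s(u, v))}.ncard := by
        intro a
        refine Set.ncard_le_ncard ?_ (Set.toFinite _)
        intro w hw
        obtain ⟨h3, h4⟩ := (hS a w).1 hw
        exact ⟨h3, h4.elim Or.inl (fun h => Or.inr (by omega))⟩
      have h3 := hr u v h1 hA
      have h4 := e u
      have h5 := e v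
      omega
  obtain ⟨M, hM⟩ : ∃ M, ∀ z : Sym2 V, r z < M := by
    obtain ⟨M, hM⟩ := (Set.finite_range r).bddAbove
    exact ⟨M + 1, fun z => Nat.lt_succ_of_le (hM ⟨z, rfl⟩)⟩
  exact key M C (fun u v => ⟨fun h => ⟨h, Or.inr (hM _)⟩, fun h => h.1⟩)

open Classical in
/-- Extension of the total colourings of distance-3 matchings of a graph `G` with a bipartite
subgraph `B` such that the edges outside `B` can be coloured greedily in a suitable order. -/
theorem rel {V : Type} [Fintype V] (G B H : SimpleGraph V) (Δ : ℕ) (X : V → Prop) (hBG : B ≤ G)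
    (hX : ∀ u v, B.Adj u v → (X u ↔ ¬ X v))
    (hΔ : ∀ v, (G.neighborSet v).ncard ≤ Δ) (hHG : H ≤ G)
    (hmatch : ∀ u v w, H.Adj u v → H.Adj u w → v = w)
    (hdist : ∀ u v x y, H.Adj u v → H.Adj x y → s(u, v) ≠ s(x, y) → 3 ≤ G.edist u x)
    (r : Sym2 V → ℕ)
    (hr : ∀ u v, G.Adj u v → ¬ B.Adj u v → ¬ H.Adj u v →
      {w | w ≠ v ∧ G.Adj u w ∧ (B.Adj u w ∨ H.Adj u w ∨ r s(u, w) ≤ r s(u, v))}.ncard +
      {w | w ≠ u ∧ G.Adj v w ∧ (B.Adj v w ∨ H.Adj v w ∨ r s(v, w) ≤ r s(u, v))}.ncard < Δ)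
    (f0 : V → Fin (Δ + 2)) (g0 : Sym2 V → Fin (Δ + 2)) (h0 : IsTotal H f0 g0) :
    ∃ (f : V → Fin (Δ + 2)) (g : Sym2 V → Fin (Δ + 2)), IsTotal G f g ∧
      ∀ u v, H.Adj u v → f u = f0 u ∧ g s(u, v) = g0 s(u, v) := by
  have hΔ' : ∀ v, dg G v ≤ Δ := hΔ
  -- covered vertices that are adjacent form an edge of the matching
  have hA : ∀ u v, G.Adj u v → (∃ x, H.Adj u x) → (∃ y, H.Adj v y) → H.Adj u v := by
    rintro u v huv ⟨x, hx⟩ ⟨y, hy⟩
    by_contra hn
    have hne : s(u, x) ≠ s(v, y) := by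
      intro h
      rw [Sym2.eq_iff] at h
      rcases h with ⟨h1, h2⟩ | ⟨h1, h2⟩
      · exact huv.ne h1
      · subst h2
        exact hn hx
    have h3 := hdist u x v y hx hy hne
    have h4 : G.edist u v ≤ 1 := by
      have := SimpleGraph.edist_le (SimpleGraph.Walk.cons huv SimpleGraph.Walk.nil)
      simpa using this
    have h5 : (3 : ℕ∞) ≤ 1 := h3.trans h4
    exact absurd h5 (by decide)
  have hB : ∀ v w z w' z', G.Adj v w → H.Adj w z → G.Adj v w' → H.Adj w' z' →
      s(w, z) = s(w', z') := by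
    intro v w z w' z' hvw hwz hvw' hwz'
    by_contra hne
    have h3 := hdist w z w' z' hwz hwz' hne
    have h4 : G.edist w w' ≤ 2 := by
      have := SimpleGraph.edist_le (SimpleGraph.Walk.cons hvw.symm
        (SimpleGraph.Walk.cons hvw' SimpleGraph.Walk.nil))
      simpa using this
    have h5 : (3 : ℕ∞) ≤ 2 := h3.trans h4
    exact absurd h5 (by decide)
  rcases Nat.eq_zero_or_pos Δ with hΔ0 | hΔ0
  · have hno : ∀ u v, ¬ G.Adj u v := by
      intro u v huv
      have h1 := hΔ' u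
      have h2 : 0 < dg G u := by
        rw [dg_eq]
        exact card_pos.2 ⟨v, by simpa using huv⟩
      omega
    exact ⟨f0, g0, ⟨fun u v h => absurd h (hno u v), fun u v w h => absurd h (hno u v),
      fun u v h => absurd h (hno u v)⟩, fun u v h => absurd (hHG h) (hno u v)⟩
  set D : V → Prop := fun v => ∃ x, H.Adj v x with hD
  obtain ⟨FA, FB, hFA, hFB, hAm, hBm, hAD, hBD, hAB, hcov⟩ :=
    two B X hX Δ hΔ0 (fun v => (dg_mono hBG v).trans (hΔ' v)) D
  have hfull : ∀ v w, dg B v = Δ → G.Adj v w → B.Adj v w := by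
    intro v w hv hvw
    by_contra hn
    have h1 : dg B v < dg G v := dg_lt hBG hvw hn
    have h2 := hΔ' v
    omega
  -- the colour of the edge of the matching near a vertex
  have hcc : ∀ v, ∃ b : Fin (Δ + 2), ∀ w z, G.Adj v w → H.Adj w z → b = g0 s(w, z) := by
    intro v
    by_cases hv : ∃ w z, G.Adj v w ∧ H.Adj w z
    · obtain ⟨w, z, hvw, hwz⟩ := hv
      exact ⟨g0 s(w, z), fun w' z' hvw' hwz' => by rw [hB v w z w' z' hvw hwz hvw' hwz']⟩
    · exact ⟨f0 v, fun w z hvw hwz => absurd ⟨w, z, hvw, hwz⟩ hv⟩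
  choose cc hcc using hcc
  set bad : V → Prop := fun v => ¬ D v ∧ (∃ w z, G.Adj v w ∧ H.Adj w z) ∧
    ((X v ∧ ∃ t, FA.Adj v t) ∨ (¬ X v ∧ ∃ t, FB.Adj v t)) with hbad
  have hbadΔ : ∀ v, bad v → dg B v = Δ := by
    rintro v ⟨_, _, ⟨h1, t, ht⟩ | ⟨h1, t, ht⟩⟩
    · exact (hAD v t h1 ht).2
    · exact (hBD v t h1 ht).2
  set f1 : V → Fin (Δ + 2) := fun v => if D v then f0 v else cc v with hf1
  have hf1D : ∀ v, D v → f1 v = f0 v := fun v hv => by simp only [hf1]; rw [if_pos hv]
  have hf1N : ∀ v, ¬ D v → f1 v = cc v := fun v hv => by simp only [hf1]; rw [if_neg hv]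
  have hone : ∀ u v, G.Adj u v → D u → bad v → f1 u ≠ f1 v := by
    rintro u v huv ⟨x, hx⟩ hv
    rw [hf1D u ⟨x, hx⟩, hf1N v hv.1, hcc v u x huv.symm hx]
    exact (h0.2.2 u x hx).symm
  have hprop : ∀ u v, (D u ∨ bad u) → (D v ∨ bad v) → G.Adj u v → f1 u ≠ f1 v := by
    intro u v hu hv huv
    rcases hu with hu | hu
    · rcases hv with hv | hv
      · rw [hf1D u hu, hf1D v hv]
        exact h0.1 u v (hA u v huv hu hv)
      · exact hone u v huv hu hv
    · rcases hv with hv | hv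
      · exact (hone v u huv.symm hv hu).symm
      · exfalso
        have huvB : B.Adj u v := hfull u v (hbadΔ u hu) huv
        have hX' := hX u v huvB
        rcases hu.2.2 with ⟨h1, t, ht⟩ | ⟨h1, t, ht⟩
        · rcases hv.2.2 with ⟨h2, t', ht'⟩ | ⟨h2, t', ht'⟩
          · exact hX'.1 h1 h2
          · rcases hAB u v h1 huvB with h | h
            · exact h t ht
            · exact h t' ht'
        · rcases hv.2.2 with ⟨h2, t', ht'⟩ | ⟨h2, t', ht'⟩
          · rcases hAB v u h2 huvB.symm with h | h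
            · exact h t' ht'
            · exact h t ht
          · exact h1 (hX'.2 h2)
  obtain ⟨f, hfD, hfG⟩ := vext G f1 (fun v => D v ∨ bad v) hprop
    (fun v => by have := hΔ' v; omega)
  have hff0 : ∀ v, D v → f v = f0 v := fun v hv => by rw [hfD v (Or.inl hv), hf1D v hv]
  have hffb : ∀ v, bad v → f v = cc v := fun v hv => by rw [hfD v (Or.inr hv), hf1N v hv.1]
  refine core G H hHG hmatch f0 g0 h0 (fun u v hu hv huv => h0.1 u v (hA u v huv hu hv)) f hff0
    hfG ?_
  intro L hL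
  have hLc : ∀ u v, (G \ H).Adj u v → Δ + 2 ≤ (L s(u, v)).card + 2 +
      (if ∃ x, H.Adj u x then 1 else 0) + (if ∃ x, H.Adj v x then 1 else 0) :=
    fun u v huv => lcard H hmatch f g0 (L s(u, v)) u v (hL u v huv)
  -- the edges of the bipartite graph
  have hbip : ∃ c, Ok (B \ H) L c := by
    refine list_two B (B \ H) FA FB sdiff_le hAm hBm X hX hAB (Δ - 1) ?_ L ?_
    · intro v
      have hle : ((B \ H) \ FA) \ FB ≤ B := (sdiff_le.trans sdiff_le).trans sdiff_le
      by_cases hv : dg B v = Δ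
      · have hlt : dg (((B \ H) \ FA) \ FB) v < dg B v := by
          by_cases hDv : D v
          · obtain ⟨x, hx⟩ := hDv
            exact dg_lt hle (hfull v x hv (hHG hx)) (fun h => h.1.1.2 hx)
          · rcases hcov v hDv hv with ⟨w, hw⟩ | ⟨w, hw⟩
            · exact dg_lt hle (hFA hw) (fun h => h.1.2 hw)
            · exact dg_lt hle (hFB hw) (fun h => h.2 hw)
        omega
      · have h1 := (dg_mono hBG v).trans (hΔ' v)
        have h2 : dg (((B \ H) \ FA) \ FB) v ≤ dg B v := dg_mono hle v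
        omega
    · intro x y hXx hxy
      have hyX : ¬ X y := (hX x y hxy.1).1 hXx
      have hxyG : (G \ H).Adj x y := ⟨hBG hxy.1, hxy.2⟩
      have hcard := hLc x y hxyG
      by_cases hDx : D x
      · have hDy : ¬ D y := fun h => hxy.2 (hA x y hxyG.1 hDx h)
        rw [if_pos hDx, if_neg hDy] at hcard
        obtain ⟨z, hz⟩ := hDx
        by_cases hb : ∃ t, FB.Adj y t
        · left
          have hbady : bad y := ⟨hDy, ⟨x, z, hxyG.1.symm, hz⟩, Or.inr ⟨hyX, hb⟩⟩
          have h1 : f y = g0 s(x, z) := by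
            rw [hffb y hbady]
            exact hcc y x z hxyG.1.symm hz
          have h2 := lcard2 H hmatch f g0 (L s(x, y)) x y z hz (fun w hw => hDy ⟨w, hw⟩) h1
            (hL x y hxyG)
          omega
        · right
          push Not at hb
          exact ⟨by omega, fun w hw => (hAD x w hXx hw).1 ⟨z, hz⟩, hb⟩
      · by_cases hDy : D y
        · rw [if_neg hDx, if_pos hDy] at hcard
          obtain ⟨z, hz⟩ := hDy
          by_cases hb : ∃ t, FA.Adj x t
          · left
            have hbadx : bad x := ⟨hDx, ⟨y, z, hxyG.1, hz⟩, Or.inl ⟨hXx, hb⟩⟩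
            have h1 : f x = g0 s(y, z) := by
              rw [hffb x hbadx]
              exact hcc x y z hxyG.1 hz
            have h2 := lcard2 H hmatch f g0 (L s(y, x)) y x z hz (fun w hw => hDx ⟨w, hw⟩) h1
              (hL y x hxyG.symm)
            rw [Sym2.eq_swap] at h2
            omega
          · right
            push Not at hb
            exact ⟨by omega, hb, fun w hw => (hBD y w hyX hw).1 ⟨z, hz⟩⟩
        · left
          rw [if_neg hDx, if_neg hDy] at hcard
          omega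
  obtain ⟨c, hc⟩ := hbip
  have hBH : B \ H ≤ G \ H := sdiff_le_sdiff_right hBG
  refine greedy (B \ H) (G \ H) hBH r L ?_ c hc
  intro u v huv hnot
  have hnB : ¬ B.Adj u v := fun h => hnot ⟨h, huv.2⟩
  have h1 := hr u v huv.1 hnB huv.2
  have h2 := hLc u v huv
  have e : ∀ a b, (G \ H).Adj a b →
      {w | (G \ H).Adj a w ∧ ((B \ H).Adj a w ∨ r s(a, w) ≤ r s(u, v))}.ncard +
        (if ∃ x, H.Adj a x then 1 else 0) ≤
      {w | w ≠ b ∧ G.Adj a w ∧ (B.Adj a w ∨ H.Adj a w ∨ r s(a, w) ≤ r s(u, v))}.ncard + 1 := by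
    intro a b hab
    have e1 : {w | (G \ H).Adj a w ∧ ((B \ H).Adj a w ∨ r s(a, w) ≤ r s(u, v))} ⊆
        insert b ({w | w ≠ b ∧ G.Adj a w ∧ (B.Adj a w ∨ H.Adj a w ∨ r s(a, w) ≤ r s(u, v))} \
          {w | H.Adj a w}) := by
      rintro w ⟨h3, h4⟩
      by_cases hwb : w = b
      · exact Or.inl hwb
      · right
        refine ⟨⟨hwb, h3.1, ?_⟩, h3.2⟩
        rcases h4 with h4 | h4
        · exact Or.inl h4.1
        · exact Or.inr (Or.inr h4)
    have e2 := (Set.ncard_le_ncard e1 (Set.toFinite _)).trans (Set.ncard_insert_le _ _)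
    by_cases ha : ∃ x, H.Adj a x
    · rw [if_pos ha]
      obtain ⟨x, hx⟩ := ha
      have hxb : x ≠ b := by
        rintro rfl
        exact hab.2 hx
      have e3 : ({w | w ≠ b ∧ G.Adj a w ∧ (B.Adj a w ∨ H.Adj a w ∨ r s(a, w) ≤ r s(u, v))} \
          {w | H.Adj a w}).ncard <
          {w | w ≠ b ∧ G.Adj a w ∧ (B.Adj a w ∨ H.Adj a w ∨ r s(a, w) ≤ r s(u, v))}.ncard := by
        refine Set.ncard_lt_ncard ⟨Set.sdiff_subset, fun hsub => ?_⟩ (Set.toFinite _)
        exact (hsub ⟨hxb, hHG hx, Or.inr (Or.inl hx)⟩).2 hx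
      omega
    · rw [if_neg ha]
      have e3 := Set.ncard_le_ncard (Set.sdiff_subset (s := {w | w ≠ b ∧ G.Adj a w ∧
        (B.Adj a w ∨ H.Adj a w ∨ r s(a, w) ≤ r s(u, v))}) (t := {w | H.Adj a w}))
        (Set.toFinite _)
      omega
  have e1 := e u v huv
  have e2 := e v u huv.symm
  omega

end Pool.Agent.H439.TB
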